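import Pool.Agent.H30.Paley.Main

/-!
# The spark of the Paley equiangular tight frame on `243` points is larger than `32`

For `q = p ^ s ≡ 3 (mod 4)` the Paley frame `Φ_q` has rows indexed by the nonzero squares `a` of
the field with `q` elements, columns indexed by the elements `x` of the field and entries
`exp (2 π i Tr (a x) / p)`.  It was conjectured that its spark is `((p + 1) / 2) ^ s` and that its
short circuits form a block design.  For `q = 3 ^ 5 = 243` the conjecture predicts the spark `32`;
we prove that any `32` columns are linearly independent, so the spark is at least `33`.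
-/

namespace Pool.Agent.Results.MP_f58820_co.PaleySpark

/-- the additive character `ψ(y) = exp (2 π i Tr(y) / p)` of a field of characteristic `p` -/
noncomputable def psi (p : ℕ) (F : Type) [Field F] [Algebra (ZMod p) F] (y : F) : ℂ :=
  Complex.exp (2 * Real.pi * Complex.I * ((Algebra.trace (ZMod p) F y).val : ℂ) / (p : ℂ))

/-- the column of the Paley frame with index `x`; its rows are indexed by the nonzero squares -/
noncomputable def column (p : ℕ) (F : Type) [Field F] [Algebra (ZMod p) F] (x : F) :
    {a : F // a ≠ 0 ∧ IsSquare a} → ℂ := fun a => psi p F (a.1 * x)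

/-- the columns indexed by the finite set `K` are linearly dependent over `ℂ` -/
def Dependent (p : ℕ) (F : Type) [Field F] [Algebra (ZMod p) F] (K : Finset F) : Prop :=
  ¬ LinearIndependent ℂ (fun x : K => column p F x.1)

/-- the spark: the least size of a linearly dependent set of columns -/
noncomputable def spark (p : ℕ) (F : Type) [Field F] [Algebra (ZMod p) F] : ℕ :=
  sInf {n : ℕ | ∃ K : Finset F, K.card = n ∧ Dependent p F K}

/-- the bender: the set of all short circuits -/
def bender (p : ℕ) (F : Type) [Field F] [Algebra (ZMod p) F] : Set (Finset F) :=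
  {K : Finset F | K.card = spark p F ∧ Dependent p F K}

/-- `𝓑` is a `(v, k, lam)`-BIBD on the point set `V` -/
def IsBIBD (V : Type) [Fintype V] (v k lam : ℕ) (𝓑 : Set (Finset V)) : Prop :=
  Fintype.card V = v ∧ (∀ K ∈ 𝓑, K.card = k) ∧
    ∀ x y : V, x ≠ y → {K : Finset V | K ∈ 𝓑 ∧ x ∈ K ∧ y ∈ K}.ncard = lam

/-- the conjecture on the spark and the bender of the Paley frames -/
def PaleySparkConjecture : Prop :=
  ∀ (p s : ℕ) (F : Type) [Field F] [Fintype F] [Algebra (ZMod p) F],
    p.Prime → p ≠ 2 → 1 ≤ s → Fintype.card F = p ^ s → p ^ s % 4 = 3 →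
      spark p F = ((p + 1) / 2) ^ s ∧
        ∃ lam : ℕ, IsBIBD F (p ^ s) (((p + 1) / 2) ^ s) lam (bender p F)

lemma psi_eq {F : Type} [Field F] [Algebra (ZMod 3) F] (x : F) :
    psi 3 F x = Complex.exp (2 * Real.pi * Complex.I / 3) ^ H30.Paley.tval x := by
  unfold psi H30.Paley.tval
  rw [← Complex.exp_nat_mul]
  congr 1
  push_cast
  ring

/-- any dependent set of columns has at least `33` elements -/
theorem card_of_dependent {F : Type} [Field F] [Fintype F] [Algebra (ZMod 3) F]
    (hF : Fintype.card F = 3 ^ 5) (K : Finset F) (hK : Dependent 3 F K) : 33 ≤ K.card := by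
  classical
  unfold Dependent at hK
  rw [Fintype.not_linearIndependent_iff] at hK
  obtain ⟨g, hg, i, hi⟩ := hK
  let G : F → ℂ := fun x => if h : x ∈ K then g ⟨x, h⟩ else 0
  refine H30.Paley.main_bound (by rw [hF]; norm_num) (psi 3 F) psi_eq G ?_ K ?_ ?_
  · intro h
    have := congrFun h i.1
    simp only [G, i.2, dite_true, Pi.zero_apply] at this
    exact hi this
  · intro x hx
    simp [G, hx]
  · intro a ha hsq
    have h1 := congrFun hg ⟨a, ha, hsq⟩
    simp only [Finset.sum_apply, Pi.smul_apply, smul_eq_mul, Pi.zero_apply, column] at h1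
    rw [← h1, ← Finset.sum_subset (Finset.subset_univ K)
      (fun x _ hx => by simp [G, hx]), ← Finset.sum_coe_sort K]
    refine Finset.sum_congr rfl fun x _ => ?_
    simp [G, x.2]

/-- the whole set of columns is dependent -/
lemma dependent_univ {F : Type} [Field F] [Fintype F] [Algebra (ZMod 3) F] :
    Dependent 3 F (Finset.univ : Finset F) := by
  classical
  intro h
  have h1 := h.fintype_card_le_finrank
  rw [Module.finrank_fintype_fun_eq_card, Fintype.card_coe, Finset.card_univ] at h1
  have h2 : Fintype.card {a : F // a ≠ 0 ∧ IsSquare a} < Fintype.card F :=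
    Fintype.card_subtype_lt (x := (0 : F)) (by simp)
  omega

theorem spark_ge {F : Type} [Field F] [Fintype F] [Algebra (ZMod 3) F]
    (hF : Fintype.card F = 3 ^ 5) : 33 ≤ spark 3 F := by
  unfold spark
  refine le_csInf ⟨_, Finset.univ, rfl, dependent_univ⟩ ?_
  rintro n ⟨K, rfl, hK⟩
  exact card_of_dependent hF K hK

/-- For every field with `243 = 3 ^ 5` elements the spark of the Paley frame is at least `33`,
whereas `((3 + 1) / 2) ^ 5 = 32`; hence the conjecture on the spark of Paley frames is false. -/
theorem result :
    (∀ (F : Type) [Field F] [Fintype F] [Algebra (ZMod 3) F],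
      Fintype.card F = 3 ^ 5 → 33 ≤ spark 3 F) ∧ ¬ PaleySparkConjecture := by
  refine ⟨fun F _ _ _ hF => spark_ge hF, fun hconj => ?_⟩
  have : Fact (Nat.Prime 3) := ⟨Nat.prime_three⟩
  have hfin : Fintype (GaloisField 3 5) := Fintype.ofFinite _
  have hcard : Fintype.card (GaloisField 3 5) = 3 ^ 5 := by
    rw [← Nat.card_eq_fintype_card]
    exact GaloisField.card 3 5 (by norm_num)
  have h1 := (hconj 3 5 (GaloisField 3 5) Nat.prime_three (by norm_num) (by norm_num) hcard
    (by norm_num)).1
  have h2 := spark_ge hcard
  rw [h1] at h2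
  norm_num at h2

end Pool.Agent.Results.MP_f58820_co.PaleySpark
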